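import Pool.Agent.Lib.P2f7dfd.Test

/-!
# A completely NCR Turing degree which is not below any recursively enumerable degree
-/

namespace Pool.Agent.Results.MP_2f7dfd_lc.CompletelyNCR

open Encodable MeasureTheory

/-! ## Definitions used in the statement -/

/-- The characteristic function of the real `A`, as a partial function on the natural numbers. -/
def chi (A : ℕ → Bool) : ℕ →. ℕ := fun n => Part.some (A n).toNat

/-- The Turing degree of the real `A`. -/
def deg (A : ℕ → Bool) : TuringDegree := toAntisymmetrization TuringReducible (chi A)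

/-- The initial segment of length `k` of `X`. -/
def seg (X : ℕ → Bool) (k : ℕ) : List Bool := (List.range k).map X

/-- The basic cylinder of the string `σ`. -/
def Cyl (σ : List Bool) : Set (ℕ → Bool) := {X | seg X σ.length = σ}

/-- The real `R` computes the values of `μ` on the cylinders, i.e., some function `g` recursive in
`R` gives approximations `g(σ, n) / 2ⁿ` of `μ [σ]` with error at most `2⁻ⁿ`. -/
def Represents (R : ℕ → Bool) (μ : Measure (ℕ → Bool)) : Prop :=
  ∃ g : ℕ → ℕ, Nat.RecursiveIn {chi R} (fun n => Part.some (g n)) ∧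
    ∀ (σ : List Bool) (n : ℕ),
      |(g (encode (σ, n)) : ℝ) / 2 ^ n - μ.real (Cyl σ)| ≤ (1 / 2) ^ n

/-- The `n`-th open set given by the partial function `φ`: the union of the cylinders of the
strings `σ` for which `φ` is defined on (the code of) `(n, σ)`. -/
def Opn (φ : ℕ →. ℕ) (n : ℕ) : Set (ℕ → Bool) :=
  ⋃ σ ∈ {σ : List Bool | (φ (encode (n, σ))).Dom}, Cyl σ

/-- `φ` gives a Martin-Löf test for `μ` relative to `R`. -/
def IsTest (R : ℕ → Bool) (μ : Measure (ℕ → Bool)) (φ : ℕ →. ℕ) : Prop :=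
  Nat.RecursiveIn {chi R} φ ∧ ∀ n, μ.real (Opn φ n) ≤ (1 / 2) ^ n

/-- `X` is Martin-Löf random for `μ` relative to `R`: it passes all tests. -/
def MLRandom (R : ℕ → Bool) (μ : Measure (ℕ → Bool)) (X : ℕ → Bool) : Prop :=
  ∀ φ, IsTest R μ φ → ∃ n, X ∉ Opn φ n

/-- `X` is `μ`-random: it is Martin-Löf random for `μ` relative to some representation of `μ`. -/
def MuRandom (μ : Measure (ℕ → Bool)) (X : ℕ → Bool) : Prop :=
  ∃ R, Represents R μ ∧ MLRandom R μ X

/-- The reals which are not random for any continuous probability measure. -/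
def NCR : Set (ℕ → Bool) :=
  {X | ∀ μ : Measure (ℕ → Bool), IsProbabilityMeasure μ → (∀ Y, μ {Y} = 0) → ¬ MuRandom μ X}

/-- The degree `d` contains a real, and all reals of degree `d` are in `NCR`. -/
def IsCompletelyNCR (d : TuringDegree) : Prop :=
  (∃ X, deg X = d) ∧ ∀ X, deg X = d → X ∈ NCR

/-- The real `W` is (the characteristic function of) a recursively enumerable set. -/
def RE (W : ℕ → Bool) : Prop := REPred fun n => W n = true

/-! ## The result -/

open Pool.Agent.Lib.P2f7dfd in
theorem cyl_eq (σ : List Bool) : Cyl σ = cyl σ := by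
  ext X
  exact eq_comm

open Pool.Agent.Lib.P2f7dfd in
theorem opn_eq (φ : ℕ →. ℕ) (n : ℕ) : Opn φ n = openOf φ n := by
  ext X
  simp only [Opn, openOf, Set.mem_iUnion, Set.mem_ofPred_eq]
  constructor
  · rintro ⟨σ, hσ, hX⟩
    refine ⟨σ.length, ?_⟩
    have h : seg X σ.length = σ := hX
    have h' : res X σ.length = σ := h
    rw [h']
    exact hσ
  · rintro ⟨k, hk⟩
    refine ⟨res X k, hk, ?_⟩
    rw [cyl_eq]
    exact pre_res X k

open Pool.Agent.Lib.P2f7dfd in
/-- There is a completely NCR Turing degree which is not below any recursively enumerable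
degree. -/
theorem result : ∃ d : TuringDegree, IsCompletelyNCR d ∧ ∀ W, RE W → ¬ d ≤ deg W := by
  obtain ⟨hcl, A, hA, hH, hnc⟩ := exists_hif
  have hle : ∀ X Y : ℕ → Bool, deg X ≤ deg Y → Nat.RecursiveIn {real Y} (real X) := by
    intro X Y h
    exact RecursiveIn.iff_nat.1 h
  refine ⟨deg A, ⟨⟨A, rfl⟩, fun B hB => ?_⟩, fun W hW h => ?_⟩
  · have hBA := hle B A hB.le
    rintro μ hμ hcont ⟨R, ⟨g, hg, hgμ⟩, hR⟩
    have : NullSingletonClass μ := ⟨hcont⟩
    obtain ⟨φ, hφ, hφ1, hφ2⟩ := exists_test hcl hA hH hBA μ (R := R) (g := g) hg (fun σ n => by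
      rw [← cyl_eq]
      exact hgμ σ n)
    obtain ⟨n, hn⟩ := hR φ ⟨hφ, fun n => by rw [opn_eq]; exact hφ1 n⟩
    rw [opn_eq] at hn
    exact hn (hφ2 n)
  · exact hH.not_le_re hnc hW (hle A W h)

end Pool.Agent.Results.MP_2f7dfd_lc.CompletelyNCR
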